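import Mathlib
import Pool.Agent.Q215.MEDBuild

/-!
A closed maximal eventually different family of permutations.
-/

open Set

namespace Pool.Agent.Results.MP_6a83a4_lc.ClosedFamily

/-- `F` is an eventually different family: distinct members agree at finitely many arguments. -/
def EventuallyDifferent (F : Set (ℕ → ℕ)) : Prop :=
  ∀ f ∈ F, ∀ g ∈ F, f ≠ g → {n : ℕ | f n = g n}.Finite

/-- `F` is a maximal eventually different family of permutations: all members are permutations of
the natural numbers, distinct members agree at finitely many arguments, and every permutation of
the natural numbers agrees with some member at infinitely many arguments. -/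
structure IsMaximalFamily (F : Set (ℕ → ℕ)) : Prop where
  perm : ∀ f ∈ F, Function.Bijective f
  different : EventuallyDifferent F
  maximal : ∀ g : ℕ → ℕ, Function.Bijective g → ∃ f ∈ F, {n : ℕ | f n = g n}.Infinite

/-- There is a set of permutations of the natural numbers which is closed in the Baire space
(the product of discrete copies of `ℕ`) and which is a maximal eventually different family of
permutations. -/
theorem result : ∃ F : Set (ℕ → ℕ), IsClosed F ∧ IsMaximalFamily F := by
  obtain ⟨F, h1, h2, h3, h4⟩ := Q215.MED.exists_closed_family
  exact ⟨F, h1, ⟨h2, h3, h4⟩⟩

end Pool.Agent.Results.MP_6a83a4_lc.ClosedFamily
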